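import Mathlib

/-!
# The gcd recursion for prime triples: basic facts for the lower bound

`A n` is the value before step `n`, `g A n` the amount subtracted at step `n`.
-/

set_option autoImplicit false

namespace Pool.Agent.R701.GD

open Finset

/-- The 3-periodic sequence `2, 6, 0, 2, 6, 0, …` (indexed from 1). -/
def b (n : ℕ) : ℕ := if n % 3 = 1 then 2 else if n % 3 = 2 then 6 else 0

/-- the second argument of the gcd -/
def v (n : ℕ) : ℕ := n + b n

lemma le_v (n : ℕ) : n ≤ v n := by unfold v; omega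

lemma v_le (n : ℕ) : v n ≤ n + 6 := by unfold v b; split_ifs <;> omega

lemma v_ne (n : ℕ) : v n ≠ v (n + 1) := by unfold v b; split_ifs <;> omega

/-- the amount subtracted at step `n` -/
def g (A : ℕ → ℕ) (n : ℕ) : ℕ := Nat.gcd (A n) (v n)

/-- the part of the descent down to a value at most `(1 - 1/D) N`, which takes at most `K s` steps,
`s` the integer square root of `N` -/
structure Dat (K D s N f : ℕ) (A : ℕ → ℕ) : Prop where
  K1 : 1 ≤ K
  D2 : 2 ≤ D
  s1 : 100 ≤ s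
  sD : D ≤ s
  f2 : 2 ≤ f
  fK : f ≤ K * s
  N1 : s * s ≤ N
  N2 : N ≤ 2 * (s * s)
  A2 : A 2 + 6 = N
  Af : D * A (f + 1) + N ≤ D * N
  step : ∀ n, 2 ≤ n → n ≤ f → A (n + 1) + g A n = A n
  half : ∀ n, 2 ≤ n → n ≤ f → N ≤ 2 * A n

variable {K D s N f : ℕ} {A : ℕ → ℕ}

lemma Dat.tele (h : Dat K D s N f A) (m n : ℕ) (hm : 2 ≤ m) (hmn : m ≤ n) (hn : n ≤ f + 1) :
    A n + ∑ k ∈ Ico m n, g A k = A m := by
  induction n, hmn using Nat.le_induction with
  | base => simp
  | succ n hmn ih =>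
    have h1 := ih (by omega)
    have h2 := h.step n (by omega) (by omega)
    rw [sum_Ico_succ_top hmn]
    omega

lemma Dat.anti (h : Dat K D s N f A) {m n : ℕ} (hm : 2 ≤ m) (hmn : m ≤ n) (hn : n ≤ f + 1) :
    A n ≤ A m := by
  have := h.tele m n hm hmn hn
  omega

lemma Dat.le_N (h : Dat K D s N f A) {n : ℕ} (hn2 : 2 ≤ n) (hn : n ≤ f + 1) : A n ≤ N := by
  have := h.anti le_rfl hn2 hn
  have := h.A2
  omega

lemma Dat.g_pos (_h : Dat K D s N f A) {n : ℕ} (hn : 1 ≤ n) : 0 < g A n := by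
  unfold g
  exact Nat.gcd_pos_of_pos_right _ (by have := le_v n; omega)

lemma g_dvd_A (n : ℕ) : g A n ∣ A n := Nat.gcd_dvd_left _ _
lemma g_dvd_v (n : ℕ) : g A n ∣ v n := Nat.gcd_dvd_right _ _

lemma g_le_v (n : ℕ) (hn : 1 ≤ n) : g A n ≤ v n :=
  Nat.le_of_dvd (by have := le_v n; omega) (g_dvd_v n)

lemma Dat.v_le_Ks (h : Dat K D s N f A) {n : ℕ} (hn : n ≤ f) : v n ≤ 2 * (K * s) := by
  have h1 := v_le n
  have h2 := h.fK
  have h3 := h.s1
  have h4 : s ≤ K * s := Nat.le_mul_of_pos_left s h.K1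
  omega

/-- the window of the steps `n ≥ s / (2 D)` -/
def W (D s f : ℕ) : Finset ℕ := (Icc 2 f).filter (fun n => s ≤ 2 * D * n)

lemma mem_W {n : ℕ} : n ∈ W D s f ↔ (2 ≤ n ∧ n ≤ f) ∧ s ≤ 2 * D * n := by
  simp [W]

lemma convex {n k n' : ℕ} (hn : n ∈ W D s f) (hn' : n' ∈ W D s f)
    (h1 : n ≤ k) (h2 : k ≤ n') : k ∈ W D s f := by
  rw [mem_W] at *
  refine ⟨⟨by omega, by omega⟩, hn.2.trans (Nat.mul_le_mul_left _ h1)⟩

/-- the steps of the window with gcd at least `s / M` -/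
def G (D s f : ℕ) (A : ℕ → ℕ) (M : ℕ) : Finset ℕ := (W D s f).filter (fun n => s ≤ M * g A n)

lemma mem_G {M n : ℕ} : n ∈ G D s f A M ↔ n ∈ W D s f ∧ s ≤ M * g A n := by
  simp [G]

lemma G_mono {M M' : ℕ} (hM : M ≤ M') : G D s f A M ⊆ G D s f A M' := by
  intro n hn
  rw [mem_G] at *
  exact ⟨hn.1, hn.2.trans (Nat.mul_le_mul_right _ hM)⟩

lemma card_G_le {M : ℕ} : (G D s f A M).card ≤ f := by
  have h1 : G D s f A M ⊆ Icc 2 f := (filter_subset _ _).trans (filter_subset _ _)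
  have := card_le_card h1
  simp at this
  omega

/-- many steps have a gcd at least `s / (8KD)` -/
lemma Dat.many (h : Dat K D s N f A) (M : ℕ) (hM : 8 * K * D ≤ M) :
    s ≤ 4 * K * D * (G D s f A M).card := by
  have hK := h.K1
  have hD := h.D2
  have hs := h.s1
  have hsD := h.sD
  have htele := h.tele 2 (f + 1) le_rfl (by have := h.f2; omega) le_rfl
  have hAf := h.Af
  have hA2 := h.A2
  have hIco : Ico 2 (f + 1) = Icc 2 f := by
    ext x
    rw [mem_Ico, mem_Icc]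
    omega
  rw [hIco] at htele
  -- three parts
  set S1 := (Icc 2 f).filter (fun n => 2 * D * n < s) with hS1
  set S3 := (Icc 2 f).filter (fun n => M * g A n < s) with hS3
  have hcov : Icc 2 f ⊆ (S1 ∪ S3) ∪ G D s f A M := by
    intro n hn
    have hn' := hn
    rw [mem_Icc] at hn'
    simp only [mem_union, hS1, hS3, mem_filter, mem_G, mem_W]
    by_cases h1 : 2 * D * n < s
    · exact Or.inl (Or.inl ⟨hn, h1⟩)
    by_cases h3 : M * g A n < s
    · exact Or.inl (Or.inr ⟨hn, h3⟩)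
    exact Or.inr ⟨⟨hn', not_lt.mp h1⟩, not_lt.mp h3⟩
  have hsum : ∑ n ∈ Icc 2 f, g A n ≤ (∑ n ∈ S1, g A n + ∑ n ∈ S3, g A n)
      + ∑ n ∈ G D s f A M, g A n := by
    calc ∑ n ∈ Icc 2 f, g A n ≤ ∑ n ∈ (S1 ∪ S3) ∪ G D s f A M, g A n :=
          sum_le_sum_of_subset hcov
      _ ≤ ∑ n ∈ S1 ∪ S3, g A n + ∑ n ∈ G D s f A M, g A n := by
          rw [← sum_union_inter]; exact Nat.le_add_right _ _
      _ ≤ _ := by
          gcongr
          rw [← sum_union_inter (s₁ := S1)]; exact Nat.le_add_right _ _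
  have b1 : 4 * D ^ 2 * ∑ n ∈ S1, g A n ≤ s * (s + 12 * D) := by
    have hc : 2 * D * S1.card ≤ s := by
      rcases S1.eq_empty_or_nonempty with he | hne
      · rw [he]; simp
      · set m := S1.max' hne with hm
        have hmm : m ∈ S1 := S1.max'_mem hne
        have hsub : S1 ⊆ Icc 2 m := by
          intro n hn
          have h1 : n ≤ m := S1.le_max' n hn
          rw [hS1, mem_filter, mem_Icc] at hn
          rw [mem_Icc]
          omega
        have h2 := card_le_card hsub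
        rw [Nat.card_Icc] at h2
        rw [hS1, mem_filter] at hmm
        calc 2 * D * S1.card ≤ 2 * D * m := Nat.mul_le_mul_left _ (by omega)
          _ ≤ s := hmm.2.le
    have hb : ∀ n ∈ S1, 2 * D * g A n ≤ s + 12 * D := by
      intro n hn
      rw [hS1, mem_filter, mem_Icc] at hn
      have h1 := g_le_v (A := A) n (by omega)
      have h2 := v_le n
      calc 2 * D * g A n ≤ 2 * D * (n + 6) := Nat.mul_le_mul_left _ (h1.trans h2)
        _ = 2 * D * n + 12 * D := by ring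
        _ ≤ s + 12 * D := by have := hn.2; omega
    have : ∑ n ∈ S1, 2 * D * g A n ≤ S1.card * (s + 12 * D) := by
      rw [← smul_eq_mul]
      exact sum_le_card_nsmul _ _ _ hb
    rw [← mul_sum] at this
    calc 4 * D ^ 2 * ∑ n ∈ S1, g A n = (2 * D) * (2 * D * ∑ n ∈ S1, g A n) := by ring
      _ ≤ (2 * D) * (S1.card * (s + 12 * D)) := Nat.mul_le_mul_left _ this
      _ = (2 * D * S1.card) * (s + 12 * D) := by ring
      _ ≤ s * (s + 12 * D) := Nat.mul_le_mul_right _ hc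
  have b3 : 8 * D * ∑ n ∈ S3, g A n ≤ s * s := by
    have hb : ∀ n ∈ S3, M * g A n ≤ s := by
      intro n hn
      rw [hS3, mem_filter, mem_Icc] at hn
      exact hn.2.le
    have h1 : ∑ n ∈ S3, M * g A n ≤ S3.card * s := by
      rw [← smul_eq_mul]
      exact sum_le_card_nsmul _ _ _ hb
    have hc : S3.card ≤ f := by
      have h0 : S3 ⊆ Icc 2 f := filter_subset _ _
      have := card_le_card h0
      rw [Nat.card_Icc] at this
      omega
    rw [← mul_sum] at h1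
    have h2 : K * (8 * D * ∑ n ∈ S3, g A n) ≤ K * (s * s) := by
      calc K * (8 * D * ∑ n ∈ S3, g A n) = 8 * K * D * ∑ n ∈ S3, g A n := by ring
        _ ≤ M * ∑ n ∈ S3, g A n := Nat.mul_le_mul_right _ hM
        _ ≤ S3.card * s := h1
        _ ≤ (K * s) * s := Nat.mul_le_mul_right _ (hc.trans h.fK)
        _ = K * (s * s) := by ring
    exact Nat.le_of_mul_le_mul_left h2 (by omega)
  have b4 : ∑ n ∈ G D s f A M, g A n ≤ (G D s f A M).card * (2 * (K * s)) := by
    rw [← smul_eq_mul]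
    apply sum_le_card_nsmul
    intro n hn
    rw [mem_G, mem_W] at hn
    exact (g_le_v n (by omega)).trans (h.v_le_Ks (by omega))
  have hN1 := h.N1
  set c := (G D s f A M).card with hc
  obtain ⟨x1, hx1⟩ : ∃ x, x = ∑ n ∈ S1, g A n := ⟨_, rfl⟩
  obtain ⟨x3, hx3⟩ : ∃ x, x = ∑ n ∈ S3, g A n := ⟨_, rfl⟩
  obtain ⟨x4, hx4⟩ : ∃ x, x = ∑ n ∈ G D s f A M, g A n := ⟨_, rfl⟩
  obtain ⟨x0, hx0⟩ : ∃ x, x = ∑ n ∈ Icc 2 f, g A n := ⟨_, rfl⟩
  rw [← hx1] at b1 hsum
  rw [← hx3] at b3 hsum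
  rw [← hx4] at b4 hsum
  rw [← hx0] at hsum htele
  -- the decrease is at least `N / D - 6`
  have e1 : N ≤ D * x0 + 6 * D := by
    have : D * (A (f + 1) + x0) = D * A 2 := by rw [htele]
    have h3 : D * A 2 + 6 * D = D * N := by rw [← hA2]; ring
    rw [mul_add] at this
    omega
  have e2 : N ≤ D * (x1 + x3 + x4) + 6 * D := e1.trans (by gcongr)
  -- multiply by `8 D`
  have e3 : 8 * D * N ≤ 2 * (s * (s + 12 * D)) + D * (s * s) + 8 * D ^ 2 * (c * (2 * (K * s)))
      + 48 * D ^ 2 := by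
    calc 8 * D * N ≤ 8 * D * (D * (x1 + x3 + x4) + 6 * D) := Nat.mul_le_mul_left _ e2
      _ = 2 * (4 * D ^ 2 * x1) + D * (8 * D * x3) + 8 * D ^ 2 * x4 + 48 * D ^ 2 := by ring
      _ ≤ 2 * (s * (s + 12 * D)) + D * (s * s) + 8 * D ^ 2 * (c * (2 * (K * s)))
          + 48 * D ^ 2 := by gcongr
  have e4 : 8 * D * (s * s) ≤ 8 * D * N := Nat.mul_le_mul_left _ hN1
  have e5 : 4 * D * s * s ≤ 4 * D * s * (4 * K * D * c) := by
    have f1 : 2 * (s * s) ≤ D * (s * s) := Nat.mul_le_mul_right _ hD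
    have f2 : 24 * (D * s) + 48 * D ^ 2 ≤ D * (s * s) := by
      have g1 : D * D ≤ D * s := Nat.mul_le_mul_left _ hsD
      have g2 : 100 * (D * s) ≤ (D * s) * s := by
        rw [mul_comm 100]; exact Nat.mul_le_mul_left _ hs
      nlinarith
    nlinarith
  have hpos : 0 < 4 * D * s := by positivity
  exact Nat.le_of_mul_le_mul_left e5 hpos

end Pool.Agent.R701.GD
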