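import Mathlib
import Pool.Agent.R701.GD.Rel

/-!
# The gcd recursion for prime triples: counting, doubling, contradiction
-/

set_option autoImplicit false

namespace Pool.Agent.R701.GD

open Finset

variable {K D s N f : ℕ} {A : ℕ → ℕ}

lemma mem_B {L M M' n : ℕ} : n ∈ B D s f A L M M' ↔ n ∈ G D s f A M ∧
    ∃ n' ∈ G D s f A M, n < n' ∧ n' ≤ n + L ∧ ∀ k, n < k → k < n' → M' * g A k < s := by
  classical
  simp [B]

lemma Dat.B_card (h : Dat K D s N f A) (L M M' Aa : ℕ) (hL : 1 ≤ L) (hM' : 1 ≤ M')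
    (hM1 : L * M ≤ M') (hM2 : 8 * D * K ^ 2 * M ^ 2 * L < M')
    (hAa : 4 * K * M + 2 * (L + 6) * M ^ 2 ≤ Aa) :
    (B D s f A L M M').card ≤ (6 + 256 * K ^ 3 * D * Aa + 256 * K ^ 3 * D * L * s / M' + 1) *
      ((2 * L + 13) * ((2 * K * M) * ((2 * K * M) * (2 * Aa + 1)))) := by
  classical
  have hex : ∀ n ∈ B D s f A L M M', ∃ (η : ℤ) (μ μ' : ℕ) (m : ℤ) (S : ℕ),
      Rel K s L M M' Aa A n η μ μ' m S := by
    intro n hn
    rw [mem_B] at hn
    obtain ⟨h1, n', h2, h3, h4, h5⟩ := hn
    exact h.rel L M M' Aa hL hM1 hM2 hAa n n' h1 h2 h3 h4 h5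
  choose! η μ μ' m S hR using hex
  obtain ⟨T, hT⟩ : ∃ T, T = 6 + 256 * K ^ 3 * D * Aa + 256 * K ^ 3 * D * L * s / M' := ⟨_, rfl⟩
  rw [← hT]
  set box : Finset (ℤ × ℕ × ℕ × ℤ) := (Icc (-((L : ℤ) + 6)) ((L : ℤ) + 6)) ×ˢ
    ((Icc 1 (2 * K * M)) ×ˢ ((Icc 1 (2 * K * M)) ×ˢ (Icc (-(Aa : ℤ)) (Aa : ℤ)))) with hbox
  have hmaps : ∀ n ∈ B D s f A L M M', (η n, μ n, μ' n, m n) ∈ box := by
    intro n hn
    obtain ⟨r1, r2, r3, r4, r5, r6, r7, -, -⟩ := hR n hn
    rw [hbox, mem_product, mem_product, mem_product]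
    simp only [mem_Icc]
    rw [abs_le] at r2 r7
    exact ⟨r2, ⟨r3, r4⟩, ⟨r5, r6⟩, r7⟩
  have hfib : ∀ τ ∈ box, ((B D s f A L M M').filter
      (fun n => (η n, μ n, μ' n, m n) = τ)).card ≤ T + 1 := by
    intro τ _
    set F := (B D s f A L M M').filter (fun n => (η n, μ n, μ' n, m n) = τ) with hF
    rcases F.eq_empty_or_nonempty with he | hne
    · rw [he]; simp
    · set n₀ := F.min' hne with hn₀
      have hmem : n₀ ∈ F := F.min'_mem hne
      have hsub : F ⊆ Icc n₀ (n₀ + T) := by
        intro n hn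
        have hle : n₀ ≤ n := F.min'_le n hn
        rw [mem_Icc]
        refine ⟨hle, ?_⟩
        rcases hle.eq_or_lt with heq | hlt
        · omega
        · rw [hF, mem_filter] at hmem hn
          obtain ⟨hB0, e0⟩ := hmem
          obtain ⟨hB1, e1⟩ := hn
          rw [← e1] at e0
          simp only [Prod.mk.injEq] at e0
          obtain ⟨q1, q2, q3, q4⟩ := e0
          have R0 := hR n₀ hB0
          have R1 := hR n hB1
          rw [q1, q2, q3, q4] at R0
          have w0 : n₀ ∈ W D s f := (mem_G.mp (mem_B.mp hB0).1).1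
          have w1 : n ∈ W D s f := (mem_G.mp (mem_B.mp hB1).1).1
          have := h.near L M M' Aa hM' n₀ n w0 w1 hlt _ _ _ _ _ _ R0 R1
          rw [← hT] at this
          exact this
      have := card_le_card hsub
      rw [Nat.card_Icc] at this
      omega
  have hcard := card_le_mul_card_image_of_maps_to hmaps (T + 1) hfib
  have hb : box.card = (2 * L + 13) * ((2 * K * M) * ((2 * K * M) * (2 * Aa + 1))) := by
    rw [hbox, card_product, card_product, card_product, Int.card_Icc, Int.card_Icc, Nat.card_Icc]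
    congr 1
    · omega
    · congr 1
      congr 1
      omega
  rw [hb] at hcard
  exact hcard

/-- from one scale to the next, the number of large steps almost doubles -/
lemma double (L M M' : ℕ) (hL : 1 ≤ L) (hMM : M ≤ M') :
    2 * (G D s f A M).card ≤ (G D s f A M').card + (B D s f A L M M').card + (f / L + 1) := by
  classical
  set Iso := (G D s f A M).filter (fun n => ¬ ∃ n' ∈ G D s f A M, n < n' ∧ n' ≤ n + L) with hIso
  have hIsoc : Iso.card ≤ f / L + 1 := by
    have : Iso.card ≤ (range (f / L + 1)).card := by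
      apply card_le_card_of_injOn (fun n => n / L)
      · intro n hn
        have hn' : n ∈ Iso := hn
        rw [hIso, mem_filter, mem_G, mem_W] at hn'
        simp only [coe_range, Set.mem_Iio]
        exact Nat.lt_succ_of_le (Nat.div_le_div_right hn'.1.1.1.2)
      · intro n₁ h1 n₂ h2 heq
        have h1' : n₁ ∈ Iso := h1
        have h2' : n₂ ∈ Iso := h2
        rw [hIso, mem_filter] at h1' h2'
        simp only at heq
        have key : ∀ x y : ℕ, x / L = y / L → x ∈ G D s f A M → y ∈ G D s f A M →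
            (¬ ∃ n' ∈ G D s f A M, x < n' ∧ n' ≤ x + L) → ¬ x < y := by
          intro x y hxy _ hy hx2 hlt
          apply hx2
          refine ⟨y, hy, hlt, ?_⟩
          have a1 := Nat.div_add_mod x L
          have a2 := Nat.div_add_mod y L
          have a3 := Nat.mod_lt y (show 0 < L by omega)
          rw [hxy] at a1
          omega
        have k1 := key n₁ n₂ heq h1'.1 h2'.1 h1'.2
        have k2 := key n₂ n₁ heq.symm h2'.1 h1'.1 h2'.2
        omega
    simpa using this
  set R := G D s f A M \ (B D s f A L M M' ∪ Iso) with hR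
  have hRc : (G D s f A M).card ≤ R.card + ((B D s f A L M M').card + Iso.card) := by
    have h1 := card_le_card_sdiff_add_card (s := G D s f A M) (t := B D s f A L M M' ∪ Iso)
    have h2 := card_union_le (B D s f A L M M') Iso
    rw [← hR] at h1
    omega
  have hκ : ∀ n ∈ R, ∃ k, n < k ∧ k ∈ G D s f A M' \ G D s f A M ∧
      ∀ x ∈ G D s f A M, n < x → k < x := by
    intro n hn
    rw [hR, mem_sdiff, mem_union, not_or] at hn
    obtain ⟨hnG, hnB, hnI⟩ := hn
    rw [hIso, mem_filter] at hnI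
    push Not at hnI
    obtain ⟨n₁, hn₁, hlt, hle⟩ := hnI hnG
    -- the next element
    have hne : ((G D s f A M).filter (fun x => n < x)).Nonempty := ⟨n₁, by simp [hn₁, hlt]⟩
    set n' := ((G D s f A M).filter (fun x => n < x)).min' hne with hn'
    have hmem := ((G D s f A M).filter (fun x => n < x)).min'_mem hne
    rw [← hn', mem_filter] at hmem
    have hmin : ∀ x ∈ G D s f A M, n < x → n' ≤ x := by
      intro x hx hnx
      exact min'_le _ _ (by simp [hx, hnx])
    have hn'L : n' ≤ n + L := (hmin n₁ hn₁ hlt).trans hle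
    by_cases hall : ∀ k, n < k → k < n' → M' * g A k < s
    · exact absurd (mem_B.mpr ⟨hnG, n', hmem.1, hmem.2, hn'L, hall⟩) hnB
    · push Not at hall
      obtain ⟨k, hk1, hk2, hk3⟩ := hall
      refine ⟨k, hk1, ?_, ?_⟩
      · rw [mem_sdiff]
        constructor
        · rw [mem_G]
          exact ⟨convex (mem_G.mp hnG).1 (mem_G.mp hmem.1).1 hk1.le hk2.le, hk3⟩
        · intro hkG
          have := hmin k hkG hk1
          omega
      · intro x hx hnx
        exact hk2.trans_le (hmin x hx hnx)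
  choose! κ k1 k2 k3 using hκ
  have hRle : R.card ≤ (G D s f A M' \ G D s f A M).card := by
    apply card_le_card_of_injOn κ
    · intro n hn
      exact k2 n hn
    · intro n₁ h1 n₂ h2 heq
      have h1' : n₁ ∈ R := h1
      have h2' : n₂ ∈ R := h2
      have G1 : n₁ ∈ G D s f A M := by rw [hR, mem_sdiff] at h1'; exact h1'.1
      have G2 : n₂ ∈ G D s f A M := by rw [hR, mem_sdiff] at h2'; exact h2'.1
      have a1 := k1 n₁ h1'
      have a2 := k1 n₂ h2'
      rcases lt_trichotomy n₁ n₂ with hlt | heq' | hlt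
      · have := k3 n₁ h1' n₂ G2 hlt
        omega
      · exact heq'
      · have := k3 n₂ h2' n₁ G1 hlt
        omega
  have hsd := card_sdiff_add_card_eq_card (G_mono (D := D) (s := s) (f := f) (A := A) hMM)
  omega

end Pool.Agent.R701.GD
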