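import Mathlib
import Pool.Agent.R701.GD.Count

/-!
# The gcd recursion for prime triples: no fast descent
-/

set_option autoImplicit false

namespace Pool.Agent.R701.GD

open Finset

variable {K D s N f : ℕ} {A : ℕ → ℕ}

lemma Dat.step_bound (h : Dat K D s N f A) (M : ℕ) (hM : 1 ≤ M)
    (hbig : 2 ^ 40 * K ^ 12 * D ^ 5 * M ^ 6 ≤ s) :
    8 * K * D * ((B D s f A (64 * K ^ 2 * D) M ((2 ^ 13 * K ^ 4 * D ^ 2) ^ 3 * M ^ 4)).card
      + (f / (64 * K ^ 2 * D) + 1)) ≤ s := by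
  have hK := h.K1
  have hD := h.D2
  have hD1 : 1 ≤ D := by omega
  have k2 : 1 ≤ K ^ 2 := Nat.one_le_pow _ _ hK
  have m2 : 1 ≤ M ^ 2 := Nat.one_le_pow _ _ hM
  have kd : 1 ≤ K ^ 2 * D := Nat.one_le_iff_ne_zero.mpr (by positivity)
  set L := 64 * K ^ 2 * D with hL
  set M' := (2 ^ 13 * K ^ 4 * D ^ 2) ^ 3 * M ^ 4 with hM'
  set Aa := 144 * K ^ 2 * D * M ^ 2 with hAa
  have hM'e : M' = 2 ^ 39 * K ^ 12 * D ^ 6 * M ^ 4 := by rw [hM']; ring
  have hM'1 : 1 ≤ M' := by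
    rw [hM'e]
    exact Nat.one_le_iff_ne_zero.mpr (by positivity)
  have hM1 : L * M ≤ M' := by
    rw [hM'e, hL]
    calc 64 * K ^ 2 * D * M = 64 * K ^ 2 * D * M * 1 := by ring
      _ ≤ 64 * K ^ 2 * D * M * (2 ^ 33 * K ^ 10 * D ^ 5 * M ^ 3) := by
          apply Nat.mul_le_mul_left
          exact Nat.one_le_iff_ne_zero.mpr (by positivity)
      _ = _ := by ring
  have hM2 : 8 * D * K ^ 2 * M ^ 2 * L < M' := by
    rw [hM'e, hL]
    calc 8 * D * K ^ 2 * M ^ 2 * (64 * K ^ 2 * D) = 2 ^ 9 * K ^ 4 * D ^ 2 * M ^ 2 * 1 := by ring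
      _ < 2 ^ 9 * K ^ 4 * D ^ 2 * M ^ 2 * (2 ^ 30 * K ^ 8 * D ^ 4 * M ^ 2) := by
          apply Nat.mul_lt_mul_of_pos_left _ (by positivity)
          have : 1 ≤ K ^ 8 * D ^ 4 * M ^ 2 := Nat.one_le_iff_ne_zero.mpr (by positivity)
          calc 1 < 2 ^ 30 * 1 := by norm_num
            _ ≤ 2 ^ 30 * (K ^ 8 * D ^ 4 * M ^ 2) := by gcongr
            _ = _ := by ring
      _ = _ := by ring
  have hAa' : 4 * K * M + 2 * (L + 6) * M ^ 2 ≤ Aa := by
    have e1 : K * M ≤ K ^ 2 * D * M ^ 2 := by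
      calc K * M = K * M * 1 := by ring
        _ ≤ K * M * (K * D * M) := by
            apply Nat.mul_le_mul_left
            exact Nat.one_le_iff_ne_zero.mpr (by positivity)
        _ = _ := by ring
    have e2 : 1 * M ^ 2 ≤ K ^ 2 * D * M ^ 2 := Nat.mul_le_mul_right _ kd
    rw [hAa, hL]
    nlinarith
  have hB := h.B_card L M M' Aa (by rw [hL, mul_assoc]; omega) hM'1 hM1 hM2 hAa'
  obtain ⟨Q, hQ⟩ : ∃ Q, Q = 256 * K ^ 3 * D * L * s / M' := ⟨_, rfl⟩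
  rw [← hQ] at hB
  obtain ⟨P, hP⟩ : ∃ P, P = (2 * L + 13) * ((2 * K * M) * ((2 * K * M) * (2 * Aa + 1))) :=
    ⟨_, rfl⟩
  rw [← hP] at hB
  have hPb : P ≤ 2 ^ 18 * K ^ 6 * D ^ 2 * M ^ 4 := by
    have p1 : 2 * L + 13 ≤ 141 * K ^ 2 * D := by
      have : 2 * L + 13 = 128 * (K ^ 2 * D) + 13 := by rw [hL]; ring
      have h2 : 141 * K ^ 2 * D = 141 * (K ^ 2 * D) := by ring
      omega
    have p2 : 2 * Aa + 1 ≤ 289 * K ^ 2 * D * M ^ 2 := by
      have : 1 ≤ K ^ 2 * D * M ^ 2 := Nat.one_le_iff_ne_zero.mpr (by positivity)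
      have h1 : 2 * Aa + 1 = 288 * (K ^ 2 * D * M ^ 2) + 1 := by rw [hAa]; ring
      have h2 : 289 * K ^ 2 * D * M ^ 2 = 289 * (K ^ 2 * D * M ^ 2) := by ring
      omega
    rw [hP]
    calc _ ≤ (141 * K ^ 2 * D) * ((2 * K * M) * ((2 * K * M) * (289 * K ^ 2 * D * M ^ 2))) := by
          gcongr
      _ = 162996 * K ^ 6 * D ^ 2 * M ^ 4 := by ring
      _ ≤ 2 ^ 18 * K ^ 6 * D ^ 2 * M ^ 4 := by gcongr; norm_num
  have hTb : 6 + 256 * K ^ 3 * D * Aa + 1 ≤ 2 ^ 16 * K ^ 5 * D ^ 2 * M ^ 2 := by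
    have : 1 ≤ K ^ 5 * D ^ 2 * M ^ 2 := Nat.one_le_iff_ne_zero.mpr (by positivity)
    have h1 : 6 + 256 * K ^ 3 * D * Aa + 1 = 36864 * (K ^ 5 * D ^ 2 * M ^ 2) + 7 := by
      rw [hAa]; ring
    have h2 : 2 ^ 16 * K ^ 5 * D ^ 2 * M ^ 2 = 65536 * (K ^ 5 * D ^ 2 * M ^ 2) := by ring
    rw [h1, h2]
    omega
  have hX1 : 8 * (8 * K * D * ((6 + 256 * K ^ 3 * D * Aa + 1) * P)) ≤ s := by
    calc _ ≤ 8 * (8 * K * D * ((2 ^ 16 * K ^ 5 * D ^ 2 * M ^ 2) *
            (2 ^ 18 * K ^ 6 * D ^ 2 * M ^ 4))) := by gcongr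
      _ = 2 ^ 40 * K ^ 12 * D ^ 5 * M ^ 6 := by ring
      _ ≤ s := hbig
  have hX2 : 8 * (8 * K * D * (Q * P)) ≤ s := by
    have q1 : Q * M' ≤ 256 * K ^ 3 * D * L * s := by rw [hQ]; exact Nat.div_mul_le_self _ _
    have q2 : (2 ^ 14 * K ^ 5 * D ^ 2) * (2 ^ 25 * K ^ 7 * D ^ 4 * M ^ 4 * Q)
        ≤ (2 ^ 14 * K ^ 5 * D ^ 2) * s := by
      calc _ = Q * (2 ^ 39 * K ^ 12 * D ^ 6 * M ^ 4) := by ring
        _ = Q * M' := by rw [hM'e]
        _ ≤ 256 * K ^ 3 * D * L * s := q1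
        _ = _ := by rw [hL]; ring
    have q3 := Nat.le_of_mul_le_mul_left q2 (by positivity)
    calc _ ≤ 8 * (8 * K * D * (Q * (2 ^ 18 * K ^ 6 * D ^ 2 * M ^ 4))) := by gcongr
      _ = 2 ^ 24 * K ^ 7 * D ^ 3 * M ^ 4 * Q := by ring
      _ ≤ 2 ^ 24 * K ^ 7 * D ^ 3 * M ^ 4 * Q * (2 * D) := Nat.le_mul_of_pos_right _ (by omega)
      _ = 2 ^ 25 * K ^ 7 * D ^ 4 * M ^ 4 * Q := by ring
      _ ≤ s := q3
  have hX3 : 4 * (8 * K * D * (f / L)) ≤ s := by
    have q1 : L * (f / L) ≤ f := Nat.mul_div_le _ _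
    have q2 : K * (4 * (8 * K * D * (f / L))) ≤ K * s := by
      calc K * (4 * (8 * K * D * (f / L))) = 32 * K ^ 2 * D * (f / L) := by ring
        _ ≤ 64 * K ^ 2 * D * (f / L) := by gcongr; norm_num
        _ = L * (f / L) := by rw [hL]
        _ ≤ f := q1
        _ ≤ K * s := h.fK
    exact Nat.le_of_mul_le_mul_left q2 (by omega)
  have hX4 : 8 * (8 * K * D * 1) ≤ s := by
    calc 8 * (8 * K * D * 1) = 2 ^ 6 * K * D * 1 := by ring
      _ ≤ 2 ^ 6 * K * D * (2 ^ 34 * K ^ 11 * D ^ 4 * M ^ 6) := by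
          apply Nat.mul_le_mul_left
          exact Nat.one_le_iff_ne_zero.mpr (by positivity)
      _ = 2 ^ 40 * K ^ 12 * D ^ 5 * M ^ 6 := by ring
      _ ≤ s := hbig
  have hB2 : (6 + 256 * K ^ 3 * D * Aa + Q + 1) * P
      = (6 + 256 * K ^ 3 * D * Aa + 1) * P + Q * P := by ring
  rw [hB2] at hB
  calc 8 * K * D * ((B D s f A L M M').card + (f / L + 1))
      ≤ 8 * K * D * (((6 + 256 * K ^ 3 * D * Aa + 1) * P + Q * P) + (f / L + 1)) := by gcongr
    _ = 8 * K * D * ((6 + 256 * K ^ 3 * D * Aa + 1) * P) + 8 * K * D * (Q * P)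
        + 8 * K * D * (f / L) + 8 * K * D * 1 := by ring
    _ ≤ s := by
        generalize 8 * K * D * ((6 + 256 * K ^ 3 * D * Aa + 1) * P) = y1 at *
        generalize 8 * K * D * (Q * P) = y2 at *
        generalize 8 * K * D * (f / L) = y3 at *
        generalize 8 * K * D * 1 = y4 at *
        clear hB hB2 hTb hPb hP hQ hAa' hM2 hM1
        omega

/-- the scales -/
def Mq (U : ℕ) : ℕ → ℕ
  | 0 => U
  | i + 1 => U ^ 3 * Mq U i ^ 4

lemma Mq_mul (U i : ℕ) : Mq U i * U = U ^ (2 * 4 ^ i) := by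
  induction i with
  | zero => simp [Mq]; ring
  | succ i ih =>
    calc Mq U (i + 1) * U = (Mq U i * U) ^ 4 := by simp only [Mq]; ring
      _ = (U ^ (2 * 4 ^ i)) ^ 4 := by rw [ih]
      _ = U ^ (2 * 4 ^ (i + 1)) := by rw [← pow_mul]; congr 1; ring

lemma Mq_pos (U i : ℕ) (hU : 1 ≤ U) : 1 ≤ Mq U i := by
  induction i with
  | zero => exact hU
  | succ i ih =>
    simp only [Mq]
    exact Nat.one_le_iff_ne_zero.mpr (by positivity)

/-- no descent to `(1 - 1/D) N` within `K s` steps once `s` is large in terms of `K` and `D` -/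
theorem Dat.core (h : Dat K D s N f A)
    (hbig : (2 ^ 13 * K ^ 4 * D ^ 2) ^ (768 * (K ^ 4 * D ^ 2)) ≤ s) : False := by
  have hK := h.K1
  have hD := h.D2
  obtain ⟨U, hU⟩ : ∃ U, U = 2 ^ 13 * K ^ 4 * D ^ 2 := ⟨_, rfl⟩
  rw [← hU] at hbig
  have hU1 : 1 ≤ U := by rw [hU]; exact Nat.one_le_iff_ne_zero.mpr (by positivity)
  set I := Nat.log 2 (8 * K ^ 2 * D) + 1 with hI
  have hI1 : 8 * K ^ 2 * D < 2 ^ I := Nat.lt_pow_succ_log_self (by norm_num) _
  have hI2 : 2 ^ I ≤ 16 * K ^ 2 * D := by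
    rw [hI, pow_succ]
    have := Nat.pow_log_le_self 2 (x := 8 * K ^ 2 * D) (by positivity)
    calc 2 ^ Nat.log 2 (8 * K ^ 2 * D) * 2 ≤ (8 * K ^ 2 * D) * 2 := Nat.mul_le_mul_right _ this
      _ = _ := by ring
  have h4I : 4 ^ I ≤ 256 * (K ^ 4 * D ^ 2) := by
    calc 4 ^ I = (2 ^ I) ^ 2 := by rw [← pow_mul, mul_comm, pow_mul]; norm_num
      _ ≤ (16 * K ^ 2 * D) ^ 2 := by gcongr
      _ = 256 * (K ^ 4 * D ^ 2) := by ring
  have hbound : ∀ i, i < I → 2 ^ 40 * K ^ 12 * D ^ 5 * (Mq U i) ^ 6 ≤ s := by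
    intro i hi
    calc 2 ^ 40 * K ^ 12 * D ^ 5 * (Mq U i) ^ 6 ≤ U ^ 6 * (Mq U i) ^ 6 := by
          apply Nat.mul_le_mul_right
          rw [hU]
          calc 2 ^ 40 * K ^ 12 * D ^ 5 = 2 ^ 40 * K ^ 12 * D ^ 5 * 1 := by ring
            _ ≤ 2 ^ 40 * K ^ 12 * D ^ 5 * (2 ^ 38 * K ^ 12 * D ^ 7) := by
                apply Nat.mul_le_mul_left
                exact Nat.one_le_iff_ne_zero.mpr (by positivity)
            _ = _ := by ring
      _ = (Mq U i * U) ^ 6 := by ring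
      _ = U ^ (3 * 4 ^ (i + 1)) := by
          rw [Mq_mul, ← pow_mul]; congr 1; ring
      _ ≤ U ^ (768 * (K ^ 4 * D ^ 2)) := by
          apply Nat.pow_le_pow_right hU1
          have : 4 ^ (i + 1) ≤ 4 ^ I := Nat.pow_le_pow_right (by norm_num) hi
          omega
      _ ≤ s := hbig
  set c : ℕ → ℕ := fun i => (G D s f A (Mq U i)).card with hc
  have hc0 : s ≤ 4 * K * D * c 0 := by
    apply h.many
    show 8 * K * D ≤ U
    rw [hU]
    calc 8 * K * D = 8 * K * D * 1 := by ring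
      _ ≤ 8 * K * D * (2 ^ 10 * K ^ 3 * D) := by
          apply Nat.mul_le_mul_left
          exact Nat.one_le_iff_ne_zero.mpr (by positivity)
      _ = _ := by ring
  have hind : ∀ i, i ≤ I → (2 ^ i + 1) * c 0 ≤ 2 * c i := by
    intro i
    induction i with
    | zero => intro _; simp
    | succ i ih =>
      intro hi
      have h1 := ih (by omega)
      have hMi := Mq_pos U i hU1
      have h2 := h.step_bound (Mq U i) hMi (hbound i (by omega))
      have hmono : Mq U i ≤ U ^ 3 * Mq U i ^ 4 := by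
        calc Mq U i = Mq U i * 1 := by ring
          _ ≤ Mq U i * (U ^ 3 * Mq U i ^ 3) := by
              apply Nat.mul_le_mul_left
              exact Nat.one_le_iff_ne_zero.mpr (by positivity)
          _ = _ := by ring
      have h3 := double (D := D) (s := s) (f := f) (A := A) (64 * K ^ 2 * D) (Mq U i)
        (U ^ 3 * Mq U i ^ 4) (Nat.one_le_iff_ne_zero.mpr (by positivity)) hmono
      rw [← hU] at h2
      have h4 : 2 * ((B D s f A (64 * K ^ 2 * D) (Mq U i) (U ^ 3 * Mq U i ^ 4)).card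
          + (f / (64 * K ^ 2 * D) + 1)) ≤ c 0 := by
        have := h2.trans hc0
        have h5 : (4 * K * D) * (2 * ((B D s f A (64 * K ^ 2 * D) (Mq U i)
          (U ^ 3 * Mq U i ^ 4)).card + (f / (64 * K ^ 2 * D) + 1))) ≤ (4 * K * D) * c 0 := by
          calc _ = 8 * K * D * ((B D s f A (64 * K ^ 2 * D) (Mq U i) (U ^ 3 * Mq U i ^ 4)).card
                + (f / (64 * K ^ 2 * D) + 1)) := by ring
            _ ≤ _ := this
        exact Nat.le_of_mul_le_mul_left h5 (by positivity)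
      have h6 : c (i + 1) = (G D s f A (U ^ 3 * Mq U i ^ 4)).card := rfl
      have h7 : c i = (G D s f A (Mq U i)).card := rfl
      rw [← h6, ← h7] at h3
      have h8 : (2 ^ (i + 1) + 1) * c 0 = 2 * ((2 ^ i + 1) * c 0) - c 0 := by
        have : (2 ^ (i + 1) + 1) * c 0 + c 0 = 2 * ((2 ^ i + 1) * c 0) := by ring
        omega
      rw [h8]
      generalize (B D s f A (64 * K ^ 2 * D) (Mq U i) (U ^ 3 * Mq U i ^ 4)).card = z at *
      generalize f / (64 * K ^ 2 * D) = w at *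
      generalize (2 ^ i + 1) * c 0 = y at *
      omega
  have hfin := hind I le_rfl
  have hcI : c I ≤ f := card_G_le
  have hc0pos : 0 < c 0 := by
    rcases Nat.eq_zero_or_pos (c 0) with h0 | h0
    · rw [h0] at hc0
      have := h.s1
      omega
    · exact h0
  have hlast : (8 * K ^ 2 * D) * c 0 < (2 ^ I + 1) * c 0 :=
    Nat.mul_lt_mul_of_pos_right (by omega) hc0pos
  have hup : 2 * c I ≤ (8 * K ^ 2 * D) * c 0 := by
    calc 2 * c I ≤ 2 * (K * s) := by have := h.fK; omega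
      _ ≤ 2 * (K * (4 * K * D * c 0)) := by gcongr
      _ = _ := by ring
  omega

end Pool.Agent.R701.GD
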